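import Pool.Agent.Helper73.Dn.Asm
import Pool.Agent.Helper66.Rig.Win3

open MeasureTheory Filter Topology Pool.Agent.Helper66.Rig

namespace Pool.Agent.Results.MP_70814c_an.DensityLaw

open Classical in
/-- The density law for the Fourier coefficients along `n_k = 2 ^ k + 3 ^ k`. Write
`θ = log 3 / log 2` and `D (x) = |S ∩ [0, x)| / x`.
(1) Uniform finite form of the upper part: if `S ⊆ [0, θ n]` is a union of at most `J` intervals and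
`log 2 |S| + log 3 |S ∩ [0, n]| ≥ (1 + ε) n log 3`, then for every probability measure `σ` on the
unit circle `∑_{k ∈ S} (1 - Re σ^(n_k)) ≥ M (1 - Re σ^(1))`, for all `n ≥ n0 (ε, M, J)`.
(2) Let `S` be a set of indices with a bounded number of components in the windows `[N, 2 N]`. If
`limsup (D (n) + D (θ n)) > 1` then for every `σ` with `σ^(1) ≠ 1` the sums of `1 - Re σ^(n_k)` over
`S ∩ [N, 2 N]` are unbounded; if `limsup (D (n) + D (θ n)) < 1` then some continuous `σ` satisfies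
`|1 - σ^(n_k)| ≤ C exp (- c k)` for all `k ∈ S`.
(3) Some continuous `σ` makes `∑_{N ≤ k ≤ C N} |1 - σ^(n_k)|` arbitrarily small for infinitely many
`N`, for every `C < log 6 / log 2` (the threshold which (1) gives for `S = [N, C N]`). -/
theorem result :
    (∀ (ε M : ℝ) (J : ℕ), 0 < ε → ∃ n0 : ℕ, ∀ n : ℕ, n0 ≤ n → ∀ S : Finset ℕ,
      (S.filter (fun k => k + 1 ∉ S)).card ≤ J →
      (∀ k ∈ S, (k : ℝ) * Real.log 2 ≤ n * Real.log 3) →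
      (1 + ε) * (n * Real.log 3) ≤
        Real.log 2 * (S.card : ℝ) + Real.log 3 * ((S.filter (fun k => k ≤ n)).card : ℝ) →
      ∀ σ : Measure ℂ, IsProbabilityMeasure σ → (∀ᵐ z ∂σ, ‖z‖ = 1) →
        M * (1 - (fc σ 1).re) ≤ ∑ k ∈ S, (1 - (fc σ (2 ^ k + 3 ^ k)).re)) ∧
    (∀ S : Set ℕ,
      (∃ J : ℕ, ∀ N : ℕ, ((Finset.Icc N (2 * N)).filter (fun k => k ∈ S ∧ k + 1 ∉ S)).card ≤ J) →
      (1 < limsup (fun n : ℕ => (cnt S n : ℝ) / n +
          (cnt S ⌊n * Real.log 3 / Real.log 2⌋₊ : ℝ) / (n * Real.log 3 / Real.log 2)) atTop →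
        ∀ σ : Measure ℂ, IsProbabilityMeasure σ → (∀ᵐ z ∂σ, ‖z‖ = 1) → fc σ 1 ≠ 1 →
          ∀ C : ℝ, ∃ N : ℕ, C < ∑ k ∈ (Finset.Icc N (2 * N)).filter (fun k => k ∈ S),
            (1 - (fc σ (2 ^ k + 3 ^ k)).re)) ∧
      (limsup (fun n : ℕ => (cnt S n : ℝ) / n +
          (cnt S ⌊n * Real.log 3 / Real.log 2⌋₊ : ℝ) / (n * Real.log 3 / Real.log 2)) atTop < 1 →
        ∃ σ : Measure ℂ, ContProb σ ∧ ∃ C c : ℝ, 0 < c ∧ ∀ k ∈ S,
          ‖1 - fc σ (2 ^ k + 3 ^ k)‖ ≤ C * Real.exp (-c * k))) ∧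
    (∃ σ : Measure ℂ, ContProb σ ∧ ∀ C : ℝ, C < Real.log 6 / Real.log 2 → ∀ ε : ℝ, 0 < ε →
      ∃ᶠ N : ℕ in atTop, ∑ k ∈ Finset.Icc N ⌊C * N⌋₊, ‖1 - fc σ (2 ^ k + 3 ^ k)‖ ≤ ε) :=
  ⟨Pool.Agent.Helper73.Dn.meas', Pool.Agent.Helper73.Dn.law, exists_windows⟩

end Pool.Agent.Results.MP_70814c_an.DensityLaw
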