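import Pool.Agent.Helper66.Rig.AltCount

open MeasureTheory Filter Topology Pool.Agent.Helper66.Rig

namespace Pool.Agent.Results.MP_70814c_an.HalfDensity

/-- Rigidity along sets of lower density arbitrarily close to `1 / 2`. For every `r` let
`q = (log 3 / log 2) ^ (1 / (2 r + 1))`; there are a continuous probability measure `σ` on the unit
circle and a set `S` of indices of lower density at least `1 / (1 + q)` and upper density at least
`q / (1 + q)` such that `σ^(2 ^ k + 3 ^ k)` tends to `1` as `k` tends to infinity within `S`.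
Here `1 / (1 + q)` tends to `1 / 2` as `r` grows, and for `r = 0` the two densities are
`log 2 / log 6` and `log 3 / log 6`. -/
theorem result :
    (∀ r : ℕ, ∃ q : ℝ, 1 < q ∧ q ^ (2 * r + 1) = Real.log 3 / Real.log 2 ∧
      ∃ (σ : Measure ℂ) (S : Set ℕ), ContProb σ ∧
        Tendsto (fun k => fc σ (2 ^ k + 3 ^ k)) (atTop ⊓ 𝓟 S) (𝓝 1) ∧
        (∀ ε : ℝ, 0 < ε → ∀ᶠ n : ℕ in atTop, (1 / (1 + q) - ε) * n ≤ cnt S n) ∧
        (∀ ε : ℝ, 0 < ε → ∃ᶠ n : ℕ in atTop, (q / (1 + q) - ε) * n ≤ cnt S n)) ∧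
    (∀ δ : ℝ, δ < 1 / 2 → ∃ (σ : Measure ℂ) (S : Set ℕ), ContProb σ ∧
      Tendsto (fun k => fc σ (2 ^ k + 3 ^ k)) (atTop ⊓ 𝓟 S) (𝓝 1) ∧
      ∀ᶠ n : ℕ in atTop, δ * n ≤ cnt S n) := by
  have hl := lam_gt
  have key : ∀ r : ℕ, 1 < lam ^ ((1 : ℝ) / ((2 * r + 1 : ℕ) : ℝ)) ∧
      (lam ^ ((1 : ℝ) / ((2 * r + 1 : ℕ) : ℝ))) ^ (2 * r + 1) = lam := by
    intro r
    have h1 : (0 : ℝ) < ((2 * r + 1 : ℕ) : ℝ) := by exact_mod_cast Nat.succ_pos _
    refine ⟨Real.one_lt_rpow hl (by positivity), ?_⟩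
    rw [← Real.rpow_natCast, ← Real.rpow_mul (by linarith), one_div, inv_mul_cancel₀ h1.ne',
      Real.rpow_one]
  refine ⟨fun r => ?_, fun δ hδ => ?_⟩
  · obtain ⟨h1, h2⟩ := key r
    obtain ⟨σ, hσ, ht⟩ := exists_conv r _ h1 h2
    exact ⟨_, h1, h2, σ, _, hσ, ht, fun ε hε => lower_gS _ h1 hε, fun ε hε => upper_gS _ h1 hε⟩
  · have t1 : Tendsto (fun r : ℕ => (1 : ℝ) / ((2 * r + 1 : ℕ) : ℝ)) atTop (𝓝 0) := by
      have h := tendsto_one_div_add_atTop_nhds_zero_nat (𝕜 := ℝ)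
      have h2 := h.comp (tendsto_id.const_mul_atTop' (by norm_num : 0 < 2))
      refine h2.congr fun r => ?_
      simp
    have t2 : Tendsto (fun r : ℕ => lam ^ ((1 : ℝ) / ((2 * r + 1 : ℕ) : ℝ))) atTop (𝓝 1) := by
      have := (Real.continuousAt_const_rpow (a := lam) (b := 0) (by linarith)).tendsto.comp t1
      rwa [Real.rpow_zero] at this
    have t3 : Tendsto (fun r : ℕ => 1 / (1 + lam ^ ((1 : ℝ) / ((2 * r + 1 : ℕ) : ℝ)))) atTop
        (𝓝 (1 / (1 + 1))) := tendsto_const_nhds.div (tendsto_const_nhds.add t2) (by norm_num)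
    obtain ⟨r, hr⟩ := (t3.eventually_const_lt (by linarith : δ < 1 / (1 + 1))).exists
    obtain ⟨h1, h2⟩ := key r
    obtain ⟨σ, hσ, ht⟩ := exists_conv r _ h1 h2
    refine ⟨σ, _, hσ, ht, ?_⟩
    have h3 := lower_gS _ h1 (sub_pos.2 hr)
    filter_upwards [h3] with n hn
    refine le_trans (le_of_eq ?_) hn
    ring

end Pool.Agent.Results.MP_70814c_an.HalfDensity
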